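import Mathlib
import Pool.Agent.N781.A.Defs
import Pool.Agent.TH575.CW.Ent

/-! Project FS (helper675), step DI: shear and passage to primes. -/

set_option autoImplicit false

namespace Pool.Agent.N170.FS

open Finset Pool.Agent.N675 Pool.Agent.N781.A Pool.Agent.TH575.CW

section shift

variable {σ : Type} [Fintype σ] [DecidableEq σ]

lemma Q_card (b : ℕ) (τ : ℤ) :
    ((Icc (1 : ℤ) b).filter (fun x => x + τ ∉ Icc (1 : ℤ) b)).card ≤ τ.natAbs := by
  rcases le_total 0 τ with h | h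
  · have hsub : (Icc (1 : ℤ) b).filter (fun x => x + τ ∉ Icc (1 : ℤ) b) ⊆
        Ioc ((b : ℤ) - τ) b := by
      intro x hx
      rw [mem_filter, mem_Icc, mem_Icc] at hx
      rw [mem_Ioc]
      refine ⟨?_, hx.1.2⟩
      by_contra hcon
      exact hx.2 ⟨by linarith [hx.1.1], by linarith⟩
    refine (card_le_card hsub).trans ?_
    rw [Int.card_Ioc]
    omega
  · have hsub : (Icc (1 : ℤ) b).filter (fun x => x + τ ∉ Icc (1 : ℤ) b) ⊆
        Icc (1 : ℤ) (-τ) := by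
      intro x hx
      rw [mem_filter, mem_Icc, mem_Icc] at hx
      rw [mem_Icc]
      refine ⟨hx.1.1, ?_⟩
      by_contra hcon
      exact hx.2 ⟨by linarith, by linarith [hx.1.2]⟩
    refine (card_le_card hsub).trans ?_
    rw [Int.card_Icc]
    omega

lemma miss_card (B : σ → ℕ) (hB : ∀ s, 0 < B s) (τ : σ → ℤ) :
    (((Box B).filter (fun v => v + τ ∉ Box B)).card : ℝ) ≤
      (∏ s, (B s : ℝ)) * ∑ s, |(τ s : ℝ)| / B s := by
  have hsub : (Box B).filter (fun v => v + τ ∉ Box B) ⊆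
      univ.biUnion fun s => Fintype.piFinset (Function.update (fun s => Icc (1 : ℤ) (B s)) s
        ((Icc (1 : ℤ) (B s)).filter (fun x => x + τ s ∉ Icc (1 : ℤ) (B s)))) := by
    intro v hv
    rw [mem_filter, mem_Box, mem_Box] at hv
    obtain ⟨h1, h2⟩ := hv
    push Not at h2
    obtain ⟨s, hs⟩ := h2
    rw [mem_biUnion]
    refine ⟨s, mem_univ _, ?_⟩
    rw [Fintype.mem_piFinset]
    intro u
    rcases eq_or_ne u s with rfl | hu
    · rw [Function.update_self, mem_filter, mem_Icc, mem_Icc]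
      refine ⟨h1 u, fun h3 => ?_⟩
      have h4 := hs h3.1
      rw [Pi.add_apply] at h4
      exact absurd h3.2 (not_le.2 h4)
    · rw [Function.update_of_ne hu, mem_Icc]
      exact h1 u
  have h1 : ((Box B).filter (fun v => v + τ ∉ Box B)).card ≤
      ∑ s, (Fintype.piFinset (Function.update (fun s => Icc (1 : ℤ) (B s)) s
        ((Icc (1 : ℤ) (B s)).filter (fun x => x + τ s ∉ Icc (1 : ℤ) (B s))))).card :=
    (card_le_card hsub).trans card_biUnion_le
  have h2 : ∀ s, ((Fintype.piFinset (Function.update (fun s => Icc (1 : ℤ) (B s)) s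
        ((Icc (1 : ℤ) (B s)).filter (fun x => x + τ s ∉ Icc (1 : ℤ) (B s))))).card : ℝ) ≤
        (∏ s, (B s : ℝ)) * (|(τ s : ℝ)| / B s) := by
    intro s
    rw [Fintype.card_piFinset]
    push_cast
    have hs0 : (0 : ℝ) < B s := by exact_mod_cast hB s
    rw [← Finset.mul_prod_erase univ _ (mem_univ s), Function.update_self]
    rw [← Finset.mul_prod_erase univ (fun s => (B s : ℝ)) (mem_univ s)]
    have h3 : ∏ u ∈ univ.erase s, (((Function.update (fun s => Icc (1 : ℤ) (B s)) s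
        ((Icc (1 : ℤ) (B s)).filter (fun x => x + τ s ∉ Icc (1 : ℤ) (B s)))) u).card : ℝ) =
        ∏ u ∈ univ.erase s, (B u : ℝ) := by
      refine Finset.prod_congr rfl fun u hu => ?_
      rw [Function.update_of_ne (ne_of_mem_erase hu), Int.card_Icc]
      congr 1
      omega
    rw [h3]
    have h4 : ((((Icc (1 : ℤ) (B s)).filter (fun x => x + τ s ∉ Icc (1 : ℤ) (B s))).card : ℕ) : ℝ) ≤
        |(τ s : ℝ)| := by
      have h5 := Q_card (B s) (τ s)
      have h6 : (((τ s).natAbs : ℕ) : ℝ) = |(τ s : ℝ)| := by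
        rw [Nat.cast_natAbs, Int.cast_abs]
      rw [← h6]
      exact_mod_cast h5
    have h7 : (0 : ℝ) ≤ ∏ u ∈ univ.erase s, (B u : ℝ) :=
      Finset.prod_nonneg fun _ _ => Nat.cast_nonneg _
    calc _ ≤ |(τ s : ℝ)| * ∏ u ∈ univ.erase s, (B u : ℝ) := mul_le_mul_of_nonneg_right h4 h7
      _ = _ := by field_simp
  calc _ ≤ ((∑ s, (Fintype.piFinset (Function.update (fun s => Icc (1 : ℤ) (B s)) s
        ((Icc (1 : ℤ) (B s)).filter (fun x => x + τ s ∉ Icc (1 : ℤ) (B s))))).card : ℕ) : ℝ) := by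
        exact_mod_cast h1
    _ ≤ ∑ s, (∏ s, (B s : ℝ)) * (|(τ s : ℝ)| / B s) := by
        push_cast
        exact Finset.sum_le_sum fun s _ => h2 s
    _ = _ := by rw [Finset.mul_sum]

lemma shift_le (B : σ → ℕ) (hB : ∀ s, 0 < B s) (τ : σ → ℤ) (F : (σ → ℤ) → ℝ)
    (hF : ∀ y, |F y| ≤ 1) :
    |∑ v ∈ Box B, F v - ∑ v ∈ Box B, F (v + τ)| ≤
      2 * ((∏ s, (B s : ℝ)) * ∑ s, |(τ s : ℝ)| / B s) := by
  have h1 : ∑ v ∈ Box B, F (v + τ) = ∑ v ∈ (Box B).filter (fun v => v + τ ∈ Box B), F (v + τ) +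
      ∑ v ∈ (Box B).filter (fun v => v + τ ∉ Box B), F (v + τ) :=
    (Finset.sum_filter_add_sum_filter_not _ _ _).symm
  have h2 : ∑ v ∈ Box B, F v = ∑ v ∈ (Box B).filter (fun v => v + -τ ∈ Box B), F v +
      ∑ v ∈ (Box B).filter (fun v => v + -τ ∉ Box B), F v :=
    (Finset.sum_filter_add_sum_filter_not _ _ _).symm
  have h3 : ∑ v ∈ (Box B).filter (fun v => v + τ ∈ Box B), F (v + τ) =
      ∑ v ∈ (Box B).filter (fun v => v + -τ ∈ Box B), F v := by
    refine Finset.sum_bij' (fun v _ => v + τ) (fun v _ => v + -τ) ?_ ?_ ?_ ?_ ?_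
    · intro v hv
      rw [mem_filter] at hv ⊢
      refine ⟨hv.2, ?_⟩
      rw [add_neg_cancel_right]
      exact hv.1
    · intro v hv
      rw [mem_filter] at hv ⊢
      refine ⟨hv.2, ?_⟩
      rw [neg_add_cancel_right]
      exact hv.1
    · intro v _
      exact add_neg_cancel_right _ _
    · intro v _
      exact neg_add_cancel_right _ _
    · intro v _
      rfl
  have h4 := miss_card B hB τ
  have h5 := miss_card B hB (-τ)
  have h6 : ∑ s, |(((-τ) s : ℤ) : ℝ)| / B s = ∑ s, |(τ s : ℝ)| / B s := by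
    refine Finset.sum_congr rfl fun s _ => ?_
    rw [Pi.neg_apply, Int.cast_neg, abs_neg]
  rw [h6] at h5
  have h7 : |∑ v ∈ (Box B).filter (fun v => v + τ ∉ Box B), F (v + τ)| ≤
      (((Box B).filter (fun v => v + τ ∉ Box B)).card : ℝ) := by
    refine (Finset.abs_sum_le_sum_abs _ _).trans ?_
    refine (Finset.sum_le_sum fun v _ => hF _).trans ?_
    simp
  have h8 : |∑ v ∈ (Box B).filter (fun v => v + -τ ∉ Box B), F v| ≤
      (((Box B).filter (fun v => v + -τ ∉ Box B)).card : ℝ) := by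
    refine (Finset.abs_sum_le_sum_abs _ _).trans ?_
    refine (Finset.sum_le_sum fun v _ => hF _).trans ?_
    simp
  rw [h1, h2, h3]
  have h9 := abs_le.1 h7
  have h10 := abs_le.1 h8
  rw [abs_le]
  constructor <;> linarith

/-- the shear -/
lemma shear (B : σ → ℕ) (hB : ∀ s, 0 < B s) (w : σ → ℤ) (T : ℕ) (hT : 0 < T) (F : (σ → ℤ) → ℝ)
    (hF : ∀ y, |F y| ≤ 1) :
    |ER B F| ≤ (∑ v ∈ Box B, |∑ t ∈ Icc (1 : ℤ) T, F (v + t • w)|) / (T * ∏ s, (B s : ℝ)) +
      2 * (T * ∑ s, |(w s : ℝ)| / B s) := by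
  have hP : (0 : ℝ) < ∏ s, (B s : ℝ) := Finset.prod_pos fun s _ => by exact_mod_cast hB s
  have hT0 : (0 : ℝ) < T := by exact_mod_cast hT
  have h1 : ∀ t ∈ Icc (1 : ℤ) T, |∑ v ∈ Box B, F v - ∑ v ∈ Box B, F (v + t • w)| ≤
      2 * ((∏ s, (B s : ℝ)) * (T * ∑ s, |(w s : ℝ)| / B s)) := by
    intro t ht
    rw [mem_Icc] at ht
    refine (shift_le B hB (t • w) F hF).trans ?_
    refine mul_le_mul_of_nonneg_left (mul_le_mul_of_nonneg_left ?_ hP.le) (by norm_num)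
    rw [Finset.mul_sum]
    refine Finset.sum_le_sum fun s _ => ?_
    rw [Pi.smul_apply, smul_eq_mul, Int.cast_mul, abs_mul, mul_div_assoc]
    refine mul_le_mul_of_nonneg_right ?_ (by positivity)
    have h2 : (1 : ℝ) ≤ t := by exact_mod_cast ht.1
    rw [abs_of_nonneg (by linarith)]
    exact_mod_cast ht.2
  have h2 : |T * ∑ v ∈ Box B, F v - ∑ t ∈ Icc (1 : ℤ) T, ∑ v ∈ Box B, F (v + t • w)| ≤
      T * (2 * ((∏ s, (B s : ℝ)) * (T * ∑ s, |(w s : ℝ)| / B s))) := by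
    have h3 : T * ∑ v ∈ Box B, F v - ∑ t ∈ Icc (1 : ℤ) T, ∑ v ∈ Box B, F (v + t • w) =
        ∑ t ∈ Icc (1 : ℤ) T, (∑ v ∈ Box B, F v - ∑ v ∈ Box B, F (v + t • w)) := by
      rw [Finset.sum_sub_distrib, Finset.sum_const, Int.card_Icc]
      simp
    rw [h3]
    refine (Finset.abs_sum_le_sum_abs _ _).trans ?_
    refine (Finset.sum_le_sum h1).trans ?_
    rw [Finset.sum_const, Int.card_Icc]
    simp
  have h3 : |∑ t ∈ Icc (1 : ℤ) T, ∑ v ∈ Box B, F (v + t • w)| ≤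
      ∑ v ∈ Box B, |∑ t ∈ Icc (1 : ℤ) T, F (v + t • w)| := by
    rw [Finset.sum_comm]
    exact Finset.abs_sum_le_sum_abs _ _
  have h4 : T * |∑ v ∈ Box B, F v| ≤ ∑ v ∈ Box B, |∑ t ∈ Icc (1 : ℤ) T, F (v + t • w)| +
      T * (2 * ((∏ s, (B s : ℝ)) * (T * ∑ s, |(w s : ℝ)| / B s))) := by
    have h5 : (T : ℝ) * |∑ v ∈ Box B, F v| = |T * ∑ v ∈ Box B, F v| := by
      rw [abs_mul, abs_of_pos hT0]
    have h6 := abs_sub_abs_le_abs_sub (T * ∑ v ∈ Box B, F v)
      (∑ t ∈ Icc (1 : ℤ) T, ∑ v ∈ Box B, F (v + t • w))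
    rw [h5]
    linarith
  unfold ER
  rw [abs_div, abs_of_pos hP, div_le_iff₀ hP]
  have h7 : ((∑ v ∈ Box B, |∑ t ∈ Icc (1 : ℤ) T, F (v + t • w)|) / (T * ∏ s, (B s : ℝ)) +
      2 * (T * ∑ s, |(w s : ℝ)| / B s)) * ∏ s, (B s : ℝ) =
      (∑ v ∈ Box B, |∑ t ∈ Icc (1 : ℤ) T, F (v + t • w)| +
      T * (2 * ((∏ s, (B s : ℝ)) * (T * ∑ s, |(w s : ℝ)| / B s)))) / T := by
    field_simp
  rw [h7, le_div_iff₀ hT0]
  linarith

end shift

lemma inv_le_log {i p : ℕ} (hi : 1 ≤ i) (hp : p ∈ QD i (i + 1)) (X : ℝ) (hX : 0 ≤ X) :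
    (1 / (p : ℝ)) * X ≤ (Real.log p * X) / (2 ^ i * (i * Real.log 2)) := by
  unfold QD at hp
  rw [mem_filter, mem_Ioc] at hp
  have h1 : ((2 : ℝ) ^ i) < p := by exact_mod_cast hp.1.1
  have h2 : (0 : ℝ) < (2 : ℝ) ^ i := by positivity
  have hl : 0 < Real.log 2 := Real.log_pos (by norm_num)
  have hi0 : (0 : ℝ) < i := by exact_mod_cast hi
  have h3 : i * Real.log 2 ≤ Real.log p := by
    rw [← Real.log_pow]
    exact Real.log_le_log h2 h1.le
  have h4 : (1 / (p : ℝ)) ≤ 1 / 2 ^ i := one_div_le_one_div_of_le h2 h1.le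
  have h5 : (1 / (2 : ℝ) ^ i) ≤ Real.log p / (2 ^ i * (i * Real.log 2)) := by
    rw [div_le_div_iff₀ h2 (by positivity), one_mul]
    calc (2 : ℝ) ^ i * (i * Real.log 2) ≤ 2 ^ i * Real.log p :=
          mul_le_mul_of_nonneg_left h3 h2.le
      _ = Real.log p * 2 ^ i := mul_comm _ _
  calc (1 / (p : ℝ)) * X ≤ (Real.log p / (2 ^ i * (i * Real.log 2))) * X :=
        mul_le_mul_of_nonneg_right (h4.trans h5) hX
    _ = _ := by ring

theorem core {n : ℕ} (w : Fin n → ℤ) (R : ℕ) (ε : ℝ) (hε : 0 < ε) :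
    ∃ (R' : ℕ) (ε' : ℝ), 0 < ε' ∧ ∀ K0 : ℕ, ∃ K : ℕ, ∀ i N : ℕ, K ≤ i → 2 ^ (i + 1) ≤ N →
      ∀ B : Fin n → ℕ, (∀ s, N ≤ R * B s ∧ B s ≤ R * N) →
      ∀ F : ℕ → (Fin n → ℤ) → ℝ, (∀ p y, |F p y| ≤ 1) →
      (∀ T : ℕ, K0 ≤ T → (∀ s, K0 ≤ B s) → K0 ≤ 2 ^ (i + 1) → 2 ^ (i + 1) ≤ R' * T →
        (∀ s, B s ≤ R' * T) → (∀ s, T ≤ R' * B s) →
        ∑ p ∈ QD i (i + 1), ∑ v ∈ Box B,
          Real.log p * |∑ t ∈ Icc (1 : ℤ) T, F p (v + t • w)| ≤
            ε' * (T * 2 ^ (i + 1) * ∏ s, (B s : ℝ))) →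
      ∑ p ∈ QD i (i + 1), (1 / (p : ℝ)) * |ER B (F p)| ≤ ε / i := by
  set W : ℝ := ∑ s, |(w s : ℝ)| with hW
  have hW0 : 0 ≤ W := Finset.sum_nonneg fun _ _ => abs_nonneg _
  have hl : 0 < Real.log 2 := Real.log_pos (by norm_num)
  obtain ⟨M, hM⟩ := exists_nat_ge (12 * R * W / (ε * Real.log 2) + 1)
  have hM1 : (1 : ℝ) ≤ M := by
    have : 0 ≤ 12 * R * W / (ε * Real.log 2) := by positivity
    linarith
  have hM1' : 1 ≤ M := by exact_mod_cast hM1
  have hM0 : (0 : ℝ) < M := by linarith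
  have hM2 : 2 * R * W / M ≤ ε * Real.log 2 / 6 := by
    have h1 : 12 * R * W / (ε * Real.log 2) ≤ M := by linarith
    rw [div_le_iff₀ (by positivity)] at h1
    rw [div_le_iff₀ hM0]
    linarith
  refine ⟨2 * M * (R + 1), ε * Real.log 2 / 4, by positivity, fun K0 => ?_⟩
  refine ⟨M * (K0 + 1) * (R + 1), fun i N hi hN B hB F hF hmain => ?_⟩
  have hi1 : 1 ≤ i := by
    refine le_trans ?_ hi
    exact Nat.mul_pos (Nat.mul_pos hM1' (Nat.succ_pos _)) (Nat.succ_pos _)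
  have hi0 : (0 : ℝ) < i := by exact_mod_cast hi1
  have h2i : i < 2 ^ (i + 1) := (Nat.lt_two_pow_self).trans (Nat.pow_lt_pow_right (by norm_num) (Nat.lt_succ_self i))
  have hNK : M * (K0 + 1) * (R + 1) < N := lt_of_le_of_lt hi (h2i.trans_le hN)
  have hMK : M * (K0 + 1) < N := lt_of_le_of_lt (Nat.le_mul_of_pos_right _ (Nat.succ_pos _)) hNK
  have hKR : (K0 + 1) * (R + 1) < N := by
    refine lt_of_le_of_lt ?_ hNK
    rw [mul_assoc]
    exact Nat.le_mul_of_pos_left _ hM1'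
  have hN0 : 0 < N := by omega
  have hNr : (0 : ℝ) < N := by exact_mod_cast hN0
  set T := N / M with hTd
  have hT1 : K0 + 1 ≤ T := by
    rw [hTd, Nat.le_div_iff_mul_le hM1', mul_comm]
    exact hMK.le
  have hT0 : 0 < T := by omega
  have hTr : (0 : ℝ) < T := by exact_mod_cast hT0
  have hMT : T * M ≤ N := Nat.div_mul_le_self N M
  have hMT2 : N ≤ 2 * M * T := by
    have h1 : N < M * (T + 1) := by
      rw [hTd]
      exact Nat.lt_mul_div_succ N hM1'
    nlinarith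
  have hBpos : ∀ s, 0 < B s := by
    intro s
    rcases Nat.eq_zero_or_pos (B s) with h0 | h0
    · have := (hB s).1
      rw [h0] at this
      omega
    · exact h0
  have hBK : ∀ s, K0 ≤ B s := by
    intro s
    by_contra hcon
    push Not at hcon
    have h1 := (hB s).1
    have h2 : R * B s ≤ R * K0 := Nat.mul_le_mul_left _ hcon.le
    nlinarith
  have hRR : R ≤ 2 * M * (R + 1) := by nlinarith
  have hm := hmain T (by omega) hBK (by
      have : K0 ≤ i := by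
        refine le_trans ?_ hi
        nlinarith [Nat.mul_pos hM1' (Nat.succ_pos R)]
      omega) (by
      refine hN.trans (hMT2.trans ?_)
      have : 2 * M ≤ 2 * M * (R + 1) := Nat.le_mul_of_pos_right _ (Nat.succ_pos _)
      exact Nat.mul_le_mul_right _ this) (fun s => by
      refine (hB s).2.trans ((Nat.mul_le_mul_left R hMT2).trans ?_)
      nlinarith [Nat.zero_le (2 * M * T)]) (fun s => by
      have h1 : T ≤ N := Nat.div_le_self _ _
      refine h1.trans ((hB s).1.trans ?_)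
      exact Nat.mul_le_mul_right _ hRR)
  have hP : (0 : ℝ) < ∏ s, (B s : ℝ) := Finset.prod_pos fun s _ => by exact_mod_cast hBpos s
  -- the error of the shear
  have herr : 2 * (T * ∑ s, |(w s : ℝ)| / B s) ≤ ε * Real.log 2 / 6 := by
    refine le_trans ?_ hM2
    have h1 : ∑ s, |(w s : ℝ)| / B s ≤ W * (R / N) := by
      rw [hW, Finset.sum_mul]
      refine Finset.sum_le_sum fun s _ => ?_
      rw [div_eq_mul_inv]
      refine mul_le_mul_of_nonneg_left ?_ (abs_nonneg _)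
      have hBs : (0 : ℝ) < B s := by exact_mod_cast hBpos s
      rw [inv_eq_one_div, div_le_div_iff₀ hBs hNr, one_mul]
      exact_mod_cast (hB s).1
    have h2 : (T : ℝ) ≤ N / M := by
      rw [le_div_iff₀ hM0]
      exact_mod_cast hMT
    have h3 : 0 ≤ W * (R / N) := by positivity
    calc 2 * (T * ∑ s, |(w s : ℝ)| / B s) ≤ 2 * ((N / M) * (W * (R / N))) := by
          refine mul_le_mul_of_nonneg_left ?_ (by norm_num)
          exact mul_le_mul h2 h1 (Finset.sum_nonneg fun s _ => by positivity) (by positivity)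
      _ = _ := by field_simp
  have hden : (0 : ℝ) < 2 ^ i * (i * Real.log 2) := by positivity
  have hsum1 : ∑ p ∈ QD i (i + 1), (1 / (p : ℝ)) *
      ((∑ v ∈ Box B, |∑ t ∈ Icc (1 : ℤ) T, F p (v + t • w)|) / (T * ∏ s, (B s : ℝ))) ≤
      ε / (2 * i) := by
    have h1 : ∀ p ∈ QD i (i + 1), (1 / (p : ℝ)) *
      ((∑ v ∈ Box B, |∑ t ∈ Icc (1 : ℤ) T, F p (v + t • w)|) / (T * ∏ s, (B s : ℝ))) ≤
      (∑ v ∈ Box B, Real.log p * |∑ t ∈ Icc (1 : ℤ) T, F p (v + t • w)|) /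
        ((T * ∏ s, (B s : ℝ)) * (2 ^ i * (i * Real.log 2))) := by
      intro p hp
      have h2 : 0 ≤ (∑ v ∈ Box B, |∑ t ∈ Icc (1 : ℤ) T, F p (v + t • w)|) /
          (T * ∏ s, (B s : ℝ)) :=
        div_nonneg (Finset.sum_nonneg fun _ _ => abs_nonneg _) (by positivity)
      refine (inv_le_log hi1 hp _ h2).trans (le_of_eq ?_)
      rw [← Finset.mul_sum]
      field_simp
    refine (Finset.sum_le_sum h1).trans ?_
    rw [← Finset.sum_div, div_le_iff₀ (by positivity)]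
    refine hm.trans (le_of_eq ?_)
    rw [pow_succ]
    field_simp
    ring
  have hsum2 : ∑ p ∈ QD i (i + 1), (1 / (p : ℝ)) * (ε * Real.log 2 / 6) ≤ ε / (2 * i) := by
    have h1 : ∀ p ∈ QD i (i + 1), (1 / (p : ℝ)) * (ε * Real.log 2 / 6) ≤
        (Real.log p * (ε * Real.log 2 / 6)) / (2 ^ i * (i * Real.log 2)) := fun p hp =>
      inv_le_log hi1 hp _ (by positivity)
    refine (Finset.sum_le_sum h1).trans ?_
    rw [← Finset.sum_div, ← Finset.sum_mul, div_le_iff₀ hden]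
    have h2 := theta_QD i
    calc (∑ p ∈ QD i (i + 1), Real.log p) * (ε * Real.log 2 / 6) ≤
          (3 * 2 ^ i) * (ε * Real.log 2 / 6) := mul_le_mul_of_nonneg_right h2 (by positivity)
      _ = _ := by
          field_simp
          ring
  calc ∑ p ∈ QD i (i + 1), (1 / (p : ℝ)) * |ER B (F p)| ≤
        ∑ p ∈ QD i (i + 1), ((1 / (p : ℝ)) *
      ((∑ v ∈ Box B, |∑ t ∈ Icc (1 : ℤ) T, F p (v + t • w)|) / (T * ∏ s, (B s : ℝ))) +
        (1 / (p : ℝ)) * (ε * Real.log 2 / 6)) := by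
        refine Finset.sum_le_sum fun p _ => ?_
        rw [← mul_add]
        refine mul_le_mul_of_nonneg_left ?_ (by positivity)
        have h1 := shear B hBpos w T hT0 (F p) (hF p)
        linarith
    _ ≤ ε / (2 * i) + ε / (2 * i) := by
        rw [Finset.sum_add_distrib]
        exact add_le_add hsum1 hsum2
    _ = ε / i := by
        field_simp
        ring

end Pool.Agent.N170.FS
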