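import Mathlib
import Pool.Agent.N675.FS.Stm
import Pool.Agent.N675.Q.Fin
import Pool.Agent.N170.FS.DIa

/-! Project FS (helper675), step DI: almost all prime dilates of the shifts, at every scale. -/

set_option autoImplicit false

namespace Pool.Agent.N170.FS

open Finset Pool.Agent.N675 Pool.Agent.N675.Q Pool.Agent.N675.FS Pool.Agent.N781.A Pool.Agent.TH575.CW

lemma goodS_equiv {κ ι ι' : Type} [Fintype κ] [DecidableEq κ] [Fintype ι] [DecidableEq ι]
    [Fintype ι'] [DecidableEq ι'] (f : ι' ≃ ι) (a : ι → ℤ) (L : ι → κ → ℤ) (lg : κ → Bool)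
    (h : M.GoodS a L lg) : M.GoodS (fun i => a (f i)) (fun i => L (f i)) lg := by
  obtain ⟨i₀, hodd | ⟨i₁, hi₁, w, v, h1, h2⟩⟩ := h
  · refine ⟨f.symm i₀, Or.inl ?_⟩
    have h3 : (M.cls (fun i => a (f i)) (fun i => L (f i)) lg (f.symm i₀)).card =
        (M.cls a L lg i₀).card := by
      refine Finset.card_equiv f fun i => ?_
      rw [M.mem_cls, M.mem_cls, f.apply_symm_apply]
    rw [h3]
    exact hodd
  · refine ⟨f.symm i₀, Or.inr ⟨f.symm i₁, ?_, w, v, ?_, ?_⟩⟩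
    · rw [M.mem_cls] at hi₁ ⊢
      simpa using hi₁
    · have e1 : a (f (f.symm i₁)) = a i₁ := by rw [f.apply_symm_apply]
      have e2 : LL (fun i => L (f i)) (f.symm i₁) v = LL L i₁ v := by
        show ∑ s, L (f (f.symm i₁)) s * v s = ∑ s, L i₁ s * v s
        rw [f.apply_symm_apply]
      show a (f (f.symm i₁)) * w + LL (fun i => L (f i)) (f.symm i₁) v ≠ 0
      rw [e1, e2]
      exact h1
    · intro i hi hne
      refine h2 (f i) ?_ ?_
      · rw [M.mem_cls] at hi ⊢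
        simpa using hi
      · intro h3
        apply hne
        rw [← h3, f.symm_apply_apply]

section

variable {ι : Type} [Fintype ι] [DecidableEq ι] {n : ℕ}

/-- the coefficients of the forms -/
def cf (ψ : ι → Fin n → ℤ) (b : ι → ℤ) (i : ι) (q : Fin (n + 1) × Fin 1) : ℤ :=
  (Fin.cons (b i) (ψ i) : Fin (n + 1) → ℤ) q.1

/-- long blocks -/
def lgn (n : ℕ) (g : Fin (n + 1)) : Bool := (Fin.cons false (fun _ => true) : Fin (n + 1) → Bool) g

/-- the parameters -/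
def emb (p : ℕ) (v : Fin n → ℤ) : Fin (n + 1) → Fin 1 → ℤ :=
  fun g _ => (Fin.cons (p : ℤ) v : Fin (n + 1) → ℤ) g

omit [Fintype ι] [DecidableEq ι] in
lemma LL_cf (ψ : ι → Fin n → ℤ) (b : ι → ℤ) (i : ι) (c : ℤ) (v : Fin n → ℤ) :
    LL (cf ψ b) i (fun q => (Fin.cons c v : Fin (n + 1) → ℤ) q.1) = LL ψ i v + c * b i := by
  unfold LL cf
  rw [Fintype.sum_prod_type, Fin.sum_univ_succ]
  simp only [Fin.cons_zero, Fin.cons_succ, Finset.univ_unique, Finset.sum_singleton]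
  ring

omit [DecidableEq ι] in
lemma cls_cf (ψ : ι → Fin n → ℤ) (b : ι → ℤ) (w : Fin n → ℤ) (hw : ∀ i, LL ψ i w ≠ 0) (i₀ : ι) :
    M.cls (fun i => LL ψ i w) (cf ψ b) (fun q : Fin (n + 1) × Fin 1 => lgn n q.1) i₀ =
      par ψ i₀ := by
  classical
  ext i
  rw [M.mem_cls]
  unfold par
  rw [mem_filter]
  constructor
  · intro h
    have h' : ∀ s, LL ψ i w * ψ i₀ s = LL ψ i₀ w * ψ i s := by
      intro s
      have := h (s.succ, 0) (by simp [lgn])
      simpa [cf] using this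
    refine ⟨mem_univ _, fun s s' => ?_⟩
    apply mul_left_cancel₀ (hw i₀)
    calc LL ψ i₀ w * (ψ i s * ψ i₀ s') = (LL ψ i₀ w * ψ i s) * ψ i₀ s' := by ring
      _ = (LL ψ i w * ψ i₀ s) * ψ i₀ s' := by rw [h']
      _ = (LL ψ i w * ψ i₀ s') * ψ i₀ s := by ring
      _ = (LL ψ i₀ w * ψ i s') * ψ i₀ s := by rw [h']
      _ = LL ψ i₀ w * (ψ i s' * ψ i₀ s) := by ring
  · rintro ⟨_, h⟩ ⟨g, u⟩ hg
    refine Fin.cases ?_ (fun s => ?_) g hg
    · intro h0
      simp [lgn] at h0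
    · intro _
      show LL ψ i w * (Fin.cons (b i₀) (ψ i₀) : Fin (n + 1) → ℤ) s.succ =
        LL ψ i₀ w * (Fin.cons (b i) (ψ i) : Fin (n + 1) → ℤ) s.succ
      rw [Fin.cons_succ, Fin.cons_succ]
      unfold LL
      rw [Finset.sum_mul, Finset.sum_mul]
      refine Finset.sum_congr rfl fun s' _ => ?_
      have := h s s'
      linear_combination (-(w s')) * this

lemma goodS_cf (ψ : ι → Fin n → ℤ) (b : ι → ℤ) (w : Fin n → ℤ) (hw : ∀ i, LL ψ i w ≠ 0)
    (hg : GoodF ψ b) : M.GoodS (fun i => LL ψ i w) (cf ψ b)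
      (fun q : Fin (n + 1) × Fin 1 => lgn n q.1) := by
  obtain ⟨i₀, hodd | ⟨i₁, hi₁, v, c, h1, h2⟩⟩ := hg
  · refine ⟨i₀, Or.inl ?_⟩
    rw [cls_cf ψ b w hw i₀]
    exact hodd
  · refine ⟨i₀, Or.inr ⟨i₁, ?_, 0, fun q => (Fin.cons c v : Fin (n + 1) → ℤ) q.1, ?_, ?_⟩⟩
    · rw [cls_cf ψ b w hw i₀]
      exact hi₁
    · rw [mul_zero, zero_add, LL_cf]
      exact h1
    · intro i hi hne
      rw [cls_cf ψ b w hw i₀] at hi
      rw [mul_zero, zero_add, LL_cf]
      exact h2 i hi hne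

lemma om_ge (D p : ℕ) (hp : p.Prime) : Real.log p ≤ om 1 D (aff (fun _ : Fin 1 => (1 : ℤ)) 0
    (fun _ => (p : ℤ))) := by
  have e : aff (fun _ : Fin 1 => (1 : ℤ)) 0 (fun _ => (p : ℤ)) = p := by
    unfold aff
    simp
  rw [e]
  unfold om
  have h1 : ArithmeticFunction.vonMangoldt (p : ℤ).natAbs = Real.log p := by
    rw [Int.natAbs_natCast, ArithmeticFunction.vonMangoldt_apply_prime hp]
  rw [h1]
  have h2 : 0 ≤ Real.log D := Real.log_natCast_nonneg D
  split_ifs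
  · linarith
  · linarith

/-- the input in a convenient form -/
theorem clean (hBLK : S_BLK) (hORTH : S_ORTH) (h : ℤ → ℝ) (hh : ∀ m, |h m| ≤ 1) (hSG : M.SG h)
    (ψ : ι → Fin n → ℤ) (b : ι → ℤ)
    (w : Fin n → ℤ) (hw : ∀ i, LL ψ i w ≠ 0) (hg : GoodF ψ b) (R : ℕ) (ε : ℝ) (hε : 0 < ε) :
    ∃ K : ℕ, ∀ (D0 : ℕ) (B : Fin n → ℕ) (x : ℕ), K ≤ x → K ≤ D0 → (∀ s, K ≤ B s) → D0 ≤ R * x →
      (∀ s, B s ≤ R * x) → (∀ s, x ≤ R * B s) → ∀ P : Finset ℕ, (∀ p ∈ P, p.Prime ∧ p ≤ D0) →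
      ∑ p ∈ P, ∑ v ∈ Box B, Real.log p * |∑ t ∈ Icc (1 : ℤ) x, Fp h ψ b p (v + t • w)| ≤
        ε * (x * D0 * ∏ s, (B s : ℝ)) := by
  classical
  set e := Fintype.equivFin ι with he
  have hgS := goodS_equiv ((Equiv.subtypeUnivEquiv (fun x => Finset.mem_univ x) :
    {x // x ∈ (univ : Finset (Fin (Fintype.card ι)))} ≃ Fin (Fintype.card ι)).trans e.symm)
    (fun i => LL ψ i w) (cf ψ b) (fun q : Fin (n + 1) × Fin 1 => lgn n q.1)
    (goodS_cf ψ b w hw hg)
  obtain ⟨K, hK⟩ := fin_sub (s := n + 1) (r := 1) (k := Fintype.card ι)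
    (fun g => if g = 0 then 1 else 0) (fun i => LL ψ (e.symm i) w) (fun i => cf ψ b (e.symm i))
    (fun _ _ _ => 1) (fun _ _ => 0) hBLK hORTH h hh hSG (fun i => hw _)
    (fun _ _ h0 => one_ne_zero (congrFun h0 0)) (fun g j j' hjj => by
      exfalso
      have h1 := j.2
      have h2 := j'.2
      apply hjj
      apply Fin.ext
      split_ifs at h1 h2 <;> omega) (lgn n) univ hgS R 1 ε one_pos hε
  refine ⟨K, fun D0 B x hx hD hB h1 h2 h3 P hP => ?_⟩
  have hmain := hK (Fin.cons D0 B : Fin (n + 1) → ℕ) x hx (fun g => by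
      refine Fin.cases ?_ (fun s => ?_) g
      · exact hD
      · exact hB s) (fun g => by
      refine Fin.cases ?_ (fun s => ?_) g
      · exact h1
      · exact h2 s) (fun g hgl => by
      revert hgl
      refine Fin.cases ?_ (fun s => ?_) g
      · intro h0
        simp [lgn] at h0
      · intro _
        exact h3 s)
  have hrhs : ∏ g : Fin (n + 1), (((Fin.cons D0 B : Fin (n + 1) → ℕ) g : ℕ) : ℝ) ^ 1 =
      D0 * ∏ s, (B s : ℝ) := by
    rw [Fin.prod_univ_succ]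
    simp
  rw [hrhs] at hmain
  refine le_trans ?_ (hmain.trans (le_of_eq (by ring)))
  rw [← Finset.sum_product']
  set G : (Fin (n + 1) → Fin 1 → ℤ) → ℝ := fun y => (∏ g : Fin (n + 1),
    ∏ j : Fin (if g = 0 then 1 else 0), om 1 ((Fin.cons D0 B : Fin (n + 1) → ℕ) g)
      (aff (fun _ : Fin 1 => (1 : ℤ)) 0 (y g))) *
    |∑ n_1 ∈ Icc (1 : ℤ) x, ∏ i ∈ (univ : Finset (Fin (Fintype.card ι))),
      h (LL ψ (e.symm i) w * n_1 + LL (fun i => cf ψ b (e.symm i)) i (fun q => y q.1 q.2))| with hG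
  have hG0 : ∀ y, 0 ≤ G y := by
    intro y
    rw [hG]
    refine mul_nonneg (Finset.prod_nonneg fun g _ => Finset.prod_nonneg fun j _ => om_nonneg _ _)
      (abs_nonneg _)
  have hGe : ∀ p : ℕ, p.Prime → ∀ v : Fin n → ℤ,
      Real.log p * |∑ t ∈ Icc (1 : ℤ) x, Fp h ψ b p (v + t • w)| ≤ G (emb p v) := by
    intro p hp v
    rw [hG]
    have e1 : (∏ g : Fin (n + 1), ∏ j : Fin (if g = 0 then 1 else 0),
        om 1 ((Fin.cons D0 B : Fin (n + 1) → ℕ) g)
        (aff (fun _ : Fin 1 => (1 : ℤ)) 0 (emb p v g))) =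
        om 1 D0 (aff (fun _ : Fin 1 => (1 : ℤ)) 0 (fun _ => (p : ℤ))) := by
      have e2 : ∀ g : Fin (n + 1), (∏ j : Fin (if g = 0 then 1 else 0),
          om 1 ((Fin.cons D0 B : Fin (n + 1) → ℕ) g)
          (aff (fun _ : Fin 1 => (1 : ℤ)) 0 (emb p v g))) =
          (om 1 ((Fin.cons D0 B : Fin (n + 1) → ℕ) g)
          (aff (fun _ : Fin 1 => (1 : ℤ)) 0 (emb p v g))) ^ (if g = 0 then 1 else 0) := by
        intro g
        rw [Finset.prod_const, Finset.card_univ, Fintype.card_fin]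
      simp only [e2]
      rw [Fin.prod_univ_succ]
      simp only [Fin.succ_ne_zero, if_true, if_false, pow_one, pow_zero, Finset.prod_const_one,
        mul_one, Fin.cons_zero]
      rfl
    have e3 : ∑ t ∈ Icc (1 : ℤ) x, Fp h ψ b p (v + t • w) =
        ∑ n_1 ∈ Icc (1 : ℤ) x, ∏ i ∈ (univ : Finset (Fin (Fintype.card ι))),
      h (LL ψ (e.symm i) w * n_1 + LL (fun i => cf ψ b (e.symm i)) i
        (fun q => emb p v q.1 q.2)) := by
      refine Finset.sum_congr rfl fun t _ => ?_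
      unfold Fp
      rw [← Equiv.prod_comp e.symm]
      refine Finset.prod_congr rfl fun i _ => ?_
      congr 1
      have e4 : LL (fun i => cf ψ b (e.symm i)) i (fun q => emb p v q.1 q.2) =
          LL ψ (e.symm i) v + p * b (e.symm i) := LL_cf ψ b (e.symm i) p v
      have e5 : LL ψ (e.symm i) (v + t • w) = LL ψ (e.symm i) v + t * LL ψ (e.symm i) w := by
        unfold LL
        rw [Finset.mul_sum, ← Finset.sum_add_distrib]
        refine Finset.sum_congr rfl fun s _ => ?_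
        rw [Pi.add_apply, Pi.smul_apply, smul_eq_mul]
        ring
      rw [e4, e5]
      ring
    show _ ≤ (∏ g : Fin (n + 1), ∏ j : Fin (if g = 0 then 1 else 0),
        om 1 ((Fin.cons D0 B : Fin (n + 1) → ℕ) g)
        (aff (fun _ : Fin 1 => (1 : ℤ)) 0 (emb p v g))) * _
    rw [e1, e3]
    exact mul_le_mul_of_nonneg_right (om_ge D0 p hp) (abs_nonneg _)
  have hinj : Set.InjOn (fun q : ℕ × (Fin n → ℤ) => emb q.1 q.2)
      ((P ×ˢ Box B : Finset (ℕ × (Fin n → ℤ))) : Set (ℕ × (Fin n → ℤ))) := by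
    rintro ⟨p, v⟩ _ ⟨p', v'⟩ _ heq
    have h4 : ∀ g : Fin (n + 1), (Fin.cons (p : ℤ) v : Fin (n + 1) → ℤ) g =
        (Fin.cons (p' : ℤ) v' : Fin (n + 1) → ℤ) g := fun g => congrFun (congrFun heq g) 0
    have h5 := h4 0
    rw [Fin.cons_zero, Fin.cons_zero] at h5
    have h6 : v = v' := by
      funext s
      have := h4 s.succ
      rwa [Fin.cons_succ, Fin.cons_succ] at this
    rw [h6, show p = p' by exact_mod_cast h5]
  calc _ ≤ ∑ q ∈ P ×ˢ Box B, G (emb q.1 q.2) := by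
        refine Finset.sum_le_sum fun q hq => ?_
        rw [mem_product] at hq
        exact hGe q.1 (hP q.1 hq.1).1 q.2
    _ = ∑ y ∈ (P ×ˢ Box B).image (fun q => emb q.1 q.2), G y :=
        (Finset.sum_image hinj).symm
    _ ≤ ∑ y ∈ Fintype.piFinset (fun g => PB 1 ((Fin.cons D0 B : Fin (n + 1) → ℕ) g)), G y := by
        refine Finset.sum_le_sum_of_subset_of_nonneg ?_ fun y _ _ => hG0 y
        intro y hy
        rw [mem_image] at hy
        obtain ⟨⟨p, v⟩, hq, rfl⟩ := hy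
        rw [mem_product, mem_Box] at hq
        rw [Fintype.mem_piFinset]
        intro g
        rw [mem_PB]
        intro u
        have hpP := hP p hq.1
        refine Fin.cases ?_ (fun s => ?_) g
        · show (1 : ℤ) ≤ p ∧ (p : ℤ) ≤ D0
          exact ⟨by exact_mod_cast hpP.1.one_lt.le, by exact_mod_cast hpP.2⟩
        · exact hq.2 s
    _ = _ := rfl

end

/-- Almost all prime dilates of the shifts, at every scale. -/
theorem di_of (hBLK : S_BLK) (hORTH : S_ORTH) : S_DI := by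
  intro h hh hSG ι _ _ n ψ b hψ hg R ε hε
  obtain ⟨w, hw⟩ := exists_dir ψ hψ
  obtain ⟨R', ε', hε', hcore⟩ := core w R ε hε
  obtain ⟨K0, hK0⟩ := clean hBLK hORTH h hh hSG ψ b w hw hg R' ε' hε'
  obtain ⟨K, hK⟩ := hcore K0
  refine ⟨K, fun i N hi hN B hB => ?_⟩
  refine hK i N hi hN B hB (fun p => Fp h ψ b p) (fun p y => ?_) ?_
  · unfold Fp
    rw [Finset.abs_prod]
    exact Finset.prod_le_one (fun _ _ => abs_nonneg _) fun _ _ => hh _
  · intro T h1 h2 h3 h4 h5 h6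
    have h7 := hK0 (2 ^ (i + 1)) B T h1 h3 h2 h4 h5 h6 (QD i (i + 1)) (fun p hp => by
      unfold QD at hp
      rw [mem_filter, mem_Ioc] at hp
      exact ⟨hp.2, hp.1.2⟩)
    push_cast at h7
    exact h7

end Pool.Agent.N170.FS
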