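import Mathlib
import Pool.Agent.N170.FS.DI
import Pool.Agent.N675.Q.All
import Pool.Agent.N40.QP.ORTH

/-! Project FS (helper675), step DI without hypotheses. -/

set_option autoImplicit false

namespace Pool.Agent.N170.FS

theorem di : Pool.Agent.N675.FS.S_DI :=
  di_of Pool.Agent.N675.Q.blk_all Pool.Agent.N40.QP.orth

end Pool.Agent.N170.FS
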